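import Mathlib

set_option autoImplicit false

/-! # Countable partitions of the positive reals into Borel additive semigroups -/

namespace Pool.Agent.R567.SP

open Set Topology

/-- A non-meagre Borel set contains, together with all sums of two elements, an interval. -/
theorem exists_Ioo_add {S : Set ℝ} (hS : MeasurableSet S) (hn : ¬ IsMeagre S) :
    ∃ a b : ℝ, a < b ∧ ∀ x ∈ Ioo (2 * a) (2 * b), ∃ s ∈ S, ∃ t ∈ S, s + t = x := by
  obtain ⟨u, hu, hSu⟩ := hS.residualEq_isOpen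
  have hune : u.Nonempty := by
    by_contra h0
    rw [Set.not_nonempty_iff_eq_empty] at h0
    subst h0
    apply hn
    have h1 : ∀ᶠ x in residual ℝ, (x ∈ S) = (x ∈ (∅ : Set ℝ)) := hSu
    change Sᶜ ∈ residual ℝ
    filter_upwards [h1] with x hx
    intro hxS
    rw [hx] at hxS
    exact hxS
  obtain ⟨x0, hx0⟩ := hune
  obtain ⟨ε, hε, hball⟩ := Metric.isOpen_iff.1 hu x0 hx0
  have hsub : Ioo (x0 - ε) (x0 + ε) ⊆ u := by
    intro t ht
    apply hball
    rw [Metric.mem_ball, Real.dist_eq, abs_lt]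
    constructor <;> linarith [ht.1, ht.2]
  refine ⟨x0 - ε, x0 + ε, by linarith, fun x hx => ?_⟩
  have h1 : ∀ᶠ t in residual ℝ, (t ∈ S) = (t ∈ u) := hSu
  let h : ℝ ≃ₜ ℝ := Homeomorph.subLeft x
  have h2 : Filter.Tendsto (fun t : ℝ => x - t) (residual ℝ) (residual ℝ) :=
    tendsto_residual_of_isOpenMap h.continuous h.isOpenMap
  have h3 := h2.eventually h1
  have h4 : {t : ℝ | ((t ∈ S) = (t ∈ u)) ∧ ((x - t ∈ S) = (x - t ∈ u))} ∈ residual ℝ := by
    filter_upwards [h1, h3] with t ht1 ht2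
    exact ⟨ht1, ht2⟩
  have h5 := dense_of_mem_residual h4
  have hV : (Ioo (max (x0 - ε) (x - (x0 + ε))) (min (x0 + ε) (x - (x0 - ε)))).Nonempty := by
    rw [nonempty_Ioo, max_lt_iff, lt_min_iff, lt_min_iff]
    refine ⟨⟨by linarith, by linarith [hx.1]⟩, by linarith [hx.2], by linarith⟩
  obtain ⟨t, htV, ht1, ht2⟩ := h5.inter_open_nonempty _ isOpen_Ioo hV
  obtain ⟨hlo, hhi⟩ := htV
  rw [max_lt_iff] at hlo
  rw [lt_min_iff] at hhi
  have h6 : t ∈ S := by
    rw [ht1]
    exact hsub ⟨hlo.1, hhi.1⟩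
  have h7 : x - t ∈ S := by
    rw [ht2]
    exact hsub ⟨by linarith [hhi.2], by linarith [hlo.2]⟩
  exact ⟨t, h6, x - t, h7, by ring⟩

theorem mul_mem_of_add {S : Set ℝ} (hadd : ∀ x ∈ S, ∀ y ∈ S, x + y ∈ S) {y : ℝ} (hy : y ∈ S) :
    ∀ n : ℕ, ((n : ℝ) + 1) * y ∈ S := by
  intro n
  induction n with
  | zero => simpa using hy
  | succ n ih =>
    have h1 := hadd _ ih _ hy
    have h2 : ((n : ℝ) + 1) * y + y = (((n + 1 : ℕ) : ℝ) + 1) * y := by push_cast; ring
    rwa [h2] at h1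

/-- A partition of the positive reals into countably many Borel additive semigroups has only one
piece. -/
theorem subsingleton_of_countable {J : Type} [Countable J] {B : J → Set ℝ}
    (hB : ∀ j, MeasurableSet (B j)) (hadd : ∀ j, ∀ x ∈ B j, ∀ y ∈ B j, x + y ∈ B j)
    (hdisj : Pairwise (Function.onFun Disjoint B)) (hne : ∀ j, (B j).Nonempty)
    (hU : ⋃ j, B j = Ioi 0) : Subsingleton J := by
  have h1 : ∃ j, ¬ IsMeagre (B j) := by
    by_contra hcon
    push Not at hcon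
    have h2 := isMeagre_iUnion hcon
    rw [hU] at h2
    exact not_isMeagre_of_isOpen isOpen_Ioi ⟨1, by simp⟩ h2
  obtain ⟨j, hj⟩ := h1
  obtain ⟨a, b, hab, hI⟩ := exists_Ioo_add (hB j) hj
  have hI' : ∀ x ∈ Ioo (2 * a) (2 * b), x ∈ B j := by
    intro x hx
    obtain ⟨s, hs, t, ht, rfl⟩ := hI x hx
    exact hadd j s hs t ht
  have hpos : ∀ x ∈ B j, 0 < x := fun x hx => by
    have : x ∈ ⋃ j, B j := mem_iUnion.2 ⟨j, hx⟩
    rw [hU] at this
    exact this
  have hb : 0 < b := by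
    have h3 : (a + b) ∈ Ioo (2 * a) (2 * b) := ⟨by linarith, by linarith⟩
    have h4 := hpos _ (hI' _ h3)
    linarith
  have key : ∀ k, k = j := by
    intro k
    obtain ⟨y, hy⟩ := hne k
    have hy0 : 0 < y := by
      have : y ∈ ⋃ j, B j := mem_iUnion.2 ⟨k, hy⟩
      rw [hU] at this
      exact this
    have h5 : max 0 (2 * a / y) < 2 * b / y := by
      rw [max_lt_iff]
      exact ⟨by positivity, by gcongr⟩
    obtain ⟨r, hr1, hr2⟩ := exists_rat_btwn h5
    rw [max_lt_iff] at hr1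
    have hr0 : 0 < r := by exact_mod_cast hr1.1
    have hz : (r : ℝ) * y ∈ B j := by
      apply hI'
      constructor
      · have := hr1.2
        rwa [div_lt_iff₀ hy0] at this
      · rwa [lt_div_iff₀ hy0] at hr2
    obtain ⟨n, hn⟩ : ∃ n : ℕ, r.num = (n : ℤ) + 1 := by
      have : 0 < r.num := Rat.num_pos.2 hr0
      exact ⟨(r.num - 1).toNat, by omega⟩
    obtain ⟨m, hm⟩ : ∃ m : ℕ, r.den = m + 1 := ⟨r.den - 1, by have := r.den_pos; omega⟩
    have h6 := mul_mem_of_add (hadd j) hz m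
    have h7 := mul_mem_of_add (hadd k) hy n
    have h8 : ((m : ℝ) + 1) * ((r : ℝ) * y) = ((n : ℝ) + 1) * y := by
      have h9 : (r : ℝ) * r.den = r.num := by exact_mod_cast Rat.mul_den_eq_num r
      have h10 : ((m : ℝ) + 1) = (r.den : ℝ) := by rw [hm]; push_cast; ring
      have h11 : ((n : ℝ) + 1) = (r.num : ℝ) := by rw [hn]; push_cast; ring
      rw [h10, h11, ← h9]
      ring
    rw [h8] at h6
    by_contra hkj
    exact Set.disjoint_left.1 (hdisj hkj) h7 h6
  exact ⟨fun x y => by rw [key x, key y]⟩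

end Pool.Agent.R567.SP
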