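import Mathlib
import Pool.Agent.H135R2.VS.Der

set_option autoImplicit false

/-! # A normal form for real numbers over a transcendence basis -/

namespace Pool.Agent.R567.SP

open MvPolynomial

theorem totalDegree_pderiv_lt {σ : Type*} [DecidableEq σ] (q : MvPolynomial σ ℚ) (j : σ)
    (h : pderiv j q ≠ 0) : (pderiv j q).totalDegree < q.totalDegree := by
  have hne : (pderiv j q).support.Nonempty := by
    rw [Finset.nonempty_iff_ne_empty]
    intro h0
    exact h (MvPolynomial.support_eq_empty.1 h0)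
  have key : ∀ m ∈ (pderiv j q).support, (m.sum fun _ e => e) + 1 ≤ q.totalDegree := by
    intro m hm
    rw [mem_support_iff, coeff_pderiv] at hm
    have h1 : m + Finsupp.single j 1 ∈ q.support := by
      rw [mem_support_iff]
      intro h2
      rw [h2, zero_mul] at hm
      exact hm rfl
    have h2 := le_totalDegree h1
    rw [Finsupp.sum_add_index' (fun _ => rfl) (fun _ _ _ => rfl),
      Finsupp.sum_single_index rfl] at h2
    exact h2
  have h3 : (pderiv j q).totalDegree ≤ q.totalDegree - 1 := by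
    unfold totalDegree
    refine Finset.sup_le fun m hm => ?_
    have := key m hm
    unfold totalDegree at this
    omega
  obtain ⟨m, hm⟩ := hne
  have := key m hm
  omega

theorem notMem_vars_of_pderiv_eq_zero {σ : Type*} [DecidableEq σ] (q : MvPolynomial σ ℚ) (j : σ)
    (h : pderiv j q = 0) : j ∉ q.vars := by
  intro hj
  rw [mem_vars_iff_mem_support] at hj
  obtain ⟨m, hm, hmj⟩ := hj
  rw [Finsupp.mem_support_iff] at hmj
  have h1 : m = (m - Finsupp.single j 1) + Finsupp.single j 1 := by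
    rw [tsub_add_cancel_of_le]
    rw [Finsupp.single_le_iff]
    omega
  have h2 := coeff_pderiv (i := j) q (m - Finsupp.single j 1)
  rw [h, coeff_zero, ← h1] at h2
  rcases mul_eq_zero.1 h2.symm with h3 | h3
  · exact (mem_support_iff.1 hm) h3
  · have : ((m - Finsupp.single j 1 : σ →₀ ℕ) j : ℚ) + 1 ≠ 0 := Nat.cast_add_one_ne_zero _
    exact this h3

theorem exists_rename_succAbove {k : ℕ} (q : MvPolynomial (Fin (k + 1)) ℚ) (j : Fin (k + 1))
    (h : pderiv j q = 0) : ∃ q' : MvPolynomial (Fin k) ℚ, rename j.succAbove q' = q := by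
  apply exists_rename_eq_of_vars_subset_range q j.succAbove Fin.succAbove_right_injective
  intro i hi
  have hij : i ≠ j := by
    rintro rfl
    exact notMem_vars_of_pderiv_eq_zero q i h (by simpa using hi)
  rw [Fin.range_succAbove]
  simpa using hij

/-- some relation -/
theorem exists_rel {T : Set ℝ} (hT : IsTranscendenceBasis ℚ ((↑) : T → ℝ)) (y : ℝ) :
    ∃ (k : ℕ) (c : Fin k → ℝ) (q : MvPolynomial (Fin (k + 1)) ℚ), StrictMono c ∧
      (∀ l, c l ∈ T) ∧ q ≠ 0 ∧ aeval (Fin.cons y c : Fin (k + 1) → ℝ) q = 0 := by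
  classical
  have halg := hT.isAlgebraic
  have h1 : ¬ AlgebraicIndependent ℚ (fun o : Option T => o.elim y ((↑) : T → ℝ)) := by
    intro h
    have := (hT.1.option_iff_transcendental y).1 h
    exact this (halg.isAlgebraic y)
  rw [algebraicIndependent_iff] at h1
  push Not at h1
  obtain ⟨p, hp0, hpne⟩ := h1
  let s' : Finset ℝ := (p.vars.filterMap id (by
    intro a a' b hb hb'
    simp only [id, Option.mem_def] at hb hb'
    rw [hb, hb'])).image ((↑) : T → ℝ)
  have hs' : ∀ t : T, some t ∈ p.vars → (t : ℝ) ∈ s' := by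
    intro t ht
    simp only [s', Finset.mem_image, Finset.mem_filterMap, id]
    exact ⟨t, ⟨some t, ht, rfl⟩, rfl⟩
  have hs'T : ∀ x ∈ s', x ∈ T := by
    intro x hx
    simp only [s', Finset.mem_image] at hx
    obtain ⟨t, _, rfl⟩ := hx
    exact t.2
  let c : Fin s'.card → ℝ := s'.orderEmbOfFin rfl
  have hc : StrictMono c := (s'.orderEmbOfFin rfl).strictMono
  have hcs : ∀ l, c l ∈ s' := fun l => s'.orderEmbOfFin_mem rfl l
  have hcT : ∀ l, c l ∈ T := fun l => hs'T _ (hcs l)
  let g : Fin (s'.card + 1) → Option T := Fin.cons none (fun l => some ⟨c l, hcT l⟩)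
  have hg : Function.Injective g := by
    intro a b
    refine Fin.cases ?_ (fun a => ?_) a <;> refine Fin.cases ?_ (fun b => ?_) b
    · intro _; rfl
    · intro h; simp [g] at h
    · intro h; simp [g] at h
    · intro h
      simp only [g, Fin.cons_succ, Option.some.injEq, Subtype.mk.injEq] at h
      rw [hc.injective h]
  have hvars : (p.vars : Set (Option T)) ⊆ Set.range g := by
    intro o ho
    cases o with
    | none => exact ⟨0, rfl⟩
    | some t =>
      have h2 : (t : ℝ) ∈ Set.range c := by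
        have h3 : Set.range c = s' := s'.range_orderEmbOfFin rfl
        rw [h3]
        exact hs' t ho
      obtain ⟨l, hl⟩ := h2
      refine ⟨l.succ, ?_⟩
      simp only [g, Fin.cons_succ, Option.some.injEq]
      exact Subtype.ext hl
  obtain ⟨q, hq⟩ := exists_rename_eq_of_vars_subset_range p g hg hvars
  refine ⟨s'.card, c, q, hc, hcT, ?_, ?_⟩
  · rintro rfl
    rw [map_zero] at hq
    exact hpne hq.symm
  · rw [← hq, aeval_rename] at hp0
    convert hp0 using 2
    congr 1
    funext i
    refine Fin.cases ?_ (fun i => ?_) i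
    · rfl
    · rfl

/-- The normal form. -/
theorem exists_normal {T : Set ℝ} (hT : IsTranscendenceBasis ℚ ((↑) : T → ℝ)) (y : ℝ) :
    ∃ (k : ℕ) (c : Fin k → ℝ) (q : MvPolynomial (Fin (k + 1)) ℚ), StrictMono c ∧
      (∀ l, c l ∈ T) ∧ aeval (Fin.cons y c : Fin (k + 1) → ℝ) q = 0 ∧
      ∀ j, aeval (Fin.cons y c : Fin (k + 1) → ℝ) (pderiv j q) ≠ 0 := by
  classical
  have hP := exists_rel hT y
  let k := Nat.find hP
  have hk := Nat.find_spec hP
  have hQ : ∃ (d : ℕ) (c : Fin k → ℝ) (q : MvPolynomial (Fin (k + 1)) ℚ), StrictMono c ∧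
      (∀ l, c l ∈ T) ∧ q ≠ 0 ∧ aeval (Fin.cons y c : Fin (k + 1) → ℝ) q = 0 ∧
      q.totalDegree = d := by
    obtain ⟨c, q, h1, h2, h3, h4⟩ := hk
    exact ⟨_, c, q, h1, h2, h3, h4, rfl⟩
  obtain ⟨c, q, hc, hcT, hq, h0, hd⟩ := Nat.find_spec hQ
  refine ⟨k, c, q, hc, hcT, h0, ?_⟩
  intro j hj
  have hz : pderiv j q = 0 := by
    by_contra hne
    have hlt := totalDegree_pderiv_lt q j hne
    rw [hd] at hlt
    exact Nat.find_min hQ hlt ⟨c, pderiv j q, hc, hcT, hne, hj, rfl⟩
  obtain ⟨q', hq'⟩ := exists_rename_succAbove q j hz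
  have hq'0 : q' ≠ 0 := by
    rintro rfl
    rw [map_zero] at hq'
    exact hq hq'.symm
  rw [← hq', aeval_rename] at h0
  revert hq' h0
  refine Fin.cases ?_ (fun l => ?_) j
  · intro h0 _
    have h1 : (Fin.cons y c : Fin (k + 1) → ℝ) ∘ (0 : Fin (k + 1)).succAbove = c := by
      funext i
      simp
    rw [h1] at h0
    have hind : AlgebraicIndependent ℚ c := by
      have := hT.1.comp (fun l => (⟨c l, hcT l⟩ : T)) (by
        intro a b hab
        exact hc.injective (Subtype.mk.inj hab))
      exact this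
    exact hq'0 ((algebraicIndependent_iff.1 hind) q' h0)
  · intro h0 _
    obtain ⟨k', hk'⟩ : ∃ k', k = k' + 1 := ⟨k - 1, by have := l.2; omega⟩
    have hmin : ∀ m < k, ¬ ∃ (c : Fin m → ℝ) (q : MvPolynomial (Fin (m + 1)) ℚ), StrictMono c ∧
      (∀ l, c l ∈ T) ∧ q ≠ 0 ∧ aeval (Fin.cons y c : Fin (m + 1) → ℝ) q = 0 :=
      fun m hm => Nat.find_min hP hm
    clear_value k
    subst hk'
    refine hmin k' (by omega) ⟨c ∘ l.succAbove, q', hc.comp (Fin.strictMono_succAbove l),
      fun i => hcT _, hq'0, ?_⟩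
    have h1 : (Fin.cons y c : Fin (k' + 1 + 1) → ℝ) ∘ l.succ.succAbove =
        Fin.cons y (c ∘ l.succAbove) := by
      funext i
      refine Fin.cases ?_ (fun i => ?_) i
      · simp
      · simp
    rw [h1] at h0
    exact h0

end Pool.Agent.R567.SP
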