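import Mathlib
import Pool.Agent.R567.SP.Norm

set_option autoImplicit false
set_option linter.unusedSectionVars false

/-! # Signs of derivations cut the positive reals into Borel semirings -/

namespace Pool.Agent.R567.SP

open MvPolynomial Set

/-- The chain rule. -/
theorem der_aeval_sum {n : ℕ} (D : Derivation ℚ ℝ ℝ) (v : Fin n → ℝ) (q : MvPolynomial (Fin n) ℚ) :
    D (aeval v q) = ∑ j, aeval v (pderiv j q) * D (v j) := by
  induction q using MvPolynomial.induction_on with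
  | C a =>
    rw [algHom_C, Derivation.map_algebraMap]
    simp
  | add p q hp hq => simp [hp, hq, add_mul, Finset.sum_add_distrib]
  | mul_X p j hp =>
    rw [map_mul, aeval_X, Derivation.leibniz, hp]
    simp only [smul_eq_mul, Derivation.leibniz, map_add, map_mul, aeval_X, pderiv_X, add_mul,
      Finset.sum_add_distrib, Finset.mul_sum]
    congr 1
    · rw [Finset.sum_eq_single j]
      · simp
      · intro b _ hb
        simp [hb.symm]
      · simp
    · refine Finset.sum_congr rfl fun i _ => ?_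
      ring

/-- The data of a normal form. -/
structure NF (T : Set ℝ) (y : ℝ) (k : ℕ) (c : Fin k → ℝ) (q : MvPolynomial (Fin (k + 1)) ℚ) :
    Prop where
  mono : StrictMono c
  mem : ∀ l, c l ∈ T
  zero : aeval (Fin.cons y c : Fin (k + 1) → ℝ) q = 0
  ne : ∀ j, aeval (Fin.cons y c : Fin (k + 1) → ℝ) (pderiv j q) ≠ 0

theorem NF.rel {T : Set ℝ} {y : ℝ} {k : ℕ} {c : Fin k → ℝ} {q : MvPolynomial (Fin (k + 1)) ℚ}
    (h : NF T y k c q) (D : Derivation ℚ ℝ ℝ) :
    aeval (Fin.cons y c : Fin (k + 1) → ℝ) (pderiv 0 q) * D y +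
      ∑ l : Fin k, aeval (Fin.cons y c : Fin (k + 1) → ℝ) (pderiv l.succ q) * D (c l) = 0 := by
  have h1 := der_aeval_sum D (Fin.cons y c : Fin (k + 1) → ℝ) q
  rw [h.zero, map_zero, Fin.sum_univ_succ] at h1
  simpa using h1.symm

theorem NF.der_eq {T : Set ℝ} {y : ℝ} {k : ℕ} {c : Fin k → ℝ} {q : MvPolynomial (Fin (k + 1)) ℚ}
    (h : NF T y k c q) (D : Derivation ℚ ℝ ℝ) :
    D y = -(∑ l : Fin k, aeval (Fin.cons y c : Fin (k + 1) → ℝ) (pderiv l.succ q) * D (c l)) /
      aeval (Fin.cons y c : Fin (k + 1) → ℝ) (pderiv 0 q) := by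
  have h1 := h.rel D
  have h2 := h.ne 0
  field_simp
  linarith

/-- Derivations with prescribed values on a transcendence basis. -/
theorem exists_der_val {T : Set ℝ} (hT : IsTranscendenceBasis ℚ ((↑) : T → ℝ)) (f : ℝ → ℝ) :
    ∃ D : Derivation ℚ ℝ ℝ, ∀ t ∈ T, D t = f t := by
  obtain ⟨D, hD⟩ := Pool.Agent.H135R2.VS.exists_der hT.1 (fun t => f t)
  exact ⟨D, fun t ht => hD ⟨t, ht⟩⟩

theorem NF.exists_der_ne {T : Set ℝ} (hT : IsTranscendenceBasis ℚ ((↑) : T → ℝ))
    {y : ℝ} {k : ℕ} {c : Fin k → ℝ} {q : MvPolynomial (Fin (k + 1)) ℚ}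
    (h : NF T y k c q) (l : Fin k) :
    ∃ D : Derivation ℚ ℝ ℝ, (∀ t ∈ T, t ≠ c l → D t = 0) ∧ D y ≠ 0 := by
  classical
  obtain ⟨D, hD⟩ := exists_der_val hT (fun t => if t = c l then 1 else 0)
  refine ⟨D, fun t ht hne => by rw [hD t ht, if_neg hne], ?_⟩
  intro h0
  have h1 := h.rel D
  rw [h0, mul_zero, zero_add, Finset.sum_eq_single l] at h1
  · rw [hD _ (h.mem l), if_pos rfl, mul_one] at h1
    exact h.ne _ h1
  · intro m _ hm
    rw [hD _ (h.mem m), if_neg (fun h2 => hm (h.mono.injective h2)), mul_zero]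
  · simp

theorem NF.range_subset {T : Set ℝ} (hT : IsTranscendenceBasis ℚ ((↑) : T → ℝ))
    {y : ℝ} {k k' : ℕ} {c : Fin k → ℝ} {q : MvPolynomial (Fin (k + 1)) ℚ}
    {c' : Fin k' → ℝ} {q' : MvPolynomial (Fin (k' + 1)) ℚ}
    (h : NF T y k c q) (h' : NF T y k' c' q') : Set.range c ⊆ Set.range c' := by
  rintro _ ⟨l, rfl⟩
  by_contra hn
  obtain ⟨D, hD, hne⟩ := h.exists_der_ne hT l
  apply hne
  rw [h'.der_eq D]
  rw [Finset.sum_eq_zero]
  · simp
  · intro m _
    rw [hD _ (h'.mem m) (fun h2 => hn ⟨m, h2⟩), mul_zero]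

theorem NF.eq_of {T : Set ℝ} (hT : IsTranscendenceBasis ℚ ((↑) : T → ℝ))
    {y : ℝ} {k : ℕ} {c c' : Fin k → ℝ} {q q' : MvPolynomial (Fin (k + 1)) ℚ}
    (h : NF T y k c q) (h' : NF T y k c' q') : c = c' :=
  (h.mono.range_inj h'.mono).1 ((h.range_subset hT h').antisymm (h'.range_subset hT h))

/-! ### The pieces -/

variable {ι : Type} [LinearOrder ι] (P : ι → Set ℝ)

/-- the union of the blocks up to `i` -/
def upTo (i : ι) : Set ℝ := ⋃ j ∈ Set.Iic i, P j

/-- `y` is killed by all derivations that vanish on the blocks up to `i`. -/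
def Low (i : ι) (y : ℝ) : Prop := ∀ D : Derivation ℚ ℝ ℝ, (∀ t ∈ upTo P i, D t = 0) → D y = 0

variable {P}

theorem Low.add {i : ι} {y z : ℝ} (hy : Low P i y) (hz : Low P i z) : Low P i (y + z) :=
  fun D hD => by rw [map_add, hy D hD, hz D hD, add_zero]

theorem Low.mul {i : ι} {y z : ℝ} (hy : Low P i y) (hz : Low P i z) : Low P i (y * z) :=
  fun D hD => by rw [Derivation.leibniz, hy D hD, hz D hD, smul_zero, smul_zero, add_zero]

theorem NF.low {T : Set ℝ} {y : ℝ} {k : ℕ} {c : Fin k → ℝ} {q : MvPolynomial (Fin (k + 1)) ℚ}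
    (h : NF T y k c q) {i : ι} (hc : ∀ l, c l ∈ upTo P i) : Low P i y := by
  intro D hD
  rw [h.der_eq D, Finset.sum_eq_zero]
  · simp
  · intro l _
    rw [hD _ (hc l), mul_zero]

theorem NF.mem_upTo (hT : IsTranscendenceBasis ℚ ((↑) : (⋃ i, P i : Set ℝ) → ℝ))
    {y : ℝ} {k : ℕ} {c : Fin k → ℝ} {q : MvPolynomial (Fin (k + 1)) ℚ}
    (h : NF (⋃ i, P i) y k c q) {i : ι} (hy : Low P i y) (l : Fin k) : c l ∈ upTo P i := by
  by_contra hn
  obtain ⟨D, hD, hne⟩ := h.exists_der_ne hT l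
  apply hne
  apply hy
  intro t ht
  apply hD
  · simp only [upTo, Set.mem_iUnion] at ht ⊢
    obtain ⟨j, _, hj⟩ := ht
    exact ⟨j, hj⟩
  · rintro rfl
    exact hn ht

/-- the test derivations: `E i n` is `t ^ n` on the block `P i` and `0` on the other blocks -/
def IsTest (P : ι → Set ℝ) (E : ι → ℕ → Derivation ℚ ℝ ℝ) : Prop :=
  ∀ i n, (∀ t ∈ P i, E i n t = t ^ n) ∧ ∀ j, j ≠ i → ∀ t ∈ P j, E i n t = 0

theorem exists_test (hT : IsTranscendenceBasis ℚ ((↑) : (⋃ i, P i : Set ℝ) → ℝ))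
    (hd : Pairwise (Function.onFun Disjoint P)) : ∃ E, IsTest P E := by
  classical
  have h : ∀ i n, ∃ D : Derivation ℚ ℝ ℝ, ∀ t ∈ ⋃ i, P i, D t = if t ∈ P i then t ^ n else 0 :=
    fun i n => exists_der_val hT _
  choose E hE using h
  refine ⟨E, fun i n => ⟨fun t ht => ?_, fun j hj t ht => ?_⟩⟩
  · rw [hE i n t (Set.mem_iUnion.2 ⟨i, ht⟩), if_pos ht]
  · rw [hE i n t (Set.mem_iUnion.2 ⟨j, ht⟩), if_neg]
    exact fun h2 => Set.disjoint_left.1 (hd hj) ht h2

theorem NF.exists_test_ne {E : ι → ℕ → Derivation ℚ ℝ ℝ} (hE : IsTest P E)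
    {y : ℝ} {k : ℕ} {c : Fin k → ℝ} {q : MvPolynomial (Fin (k + 1)) ℚ}
    (h : NF (⋃ i, P i) y k c q) {i : ι} {l : Fin k} (hl : c l ∈ P i) : ∃ n, E i n y ≠ 0 := by
  classical
  by_contra hcon
  push Not at hcon
  let a : Fin k → ℝ := fun m =>
    if c m ∈ P i then aeval (Fin.cons y c : Fin (k + 1) → ℝ) (pderiv m.succ q) else 0
  have hval : ∀ n m, aeval (Fin.cons y c : Fin (k + 1) → ℝ) (pderiv m.succ q) * E i n (c m) =
      a m * c m ^ n := by
    intro n m
    simp only [a]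
    split_ifs with hm
    · rw [(hE i n).1 _ hm]
    · obtain ⟨j, hj⟩ := Set.mem_iUnion.1 (h.mem m)
      rw [(hE i n).2 j (fun h2 => hm (h2 ▸ hj)) _ hj, mul_zero, zero_mul]
  have h1 : ∀ n, ∑ m, a m * c m ^ n = 0 := by
    intro n
    have h2 := h.rel (E i n)
    rw [hcon n, mul_zero, zero_add] at h2
    rw [← h2]
    exact Finset.sum_congr rfl fun m _ => (hval n m).symm
  have h3 : ∀ p : Polynomial ℝ, ∑ m, a m * p.eval (c m) = 0 := by
    intro p
    have h4 : ∀ m, a m * p.eval (c m) = ∑ n ∈ p.support, p.coeff n * (a m * c m ^ n) := by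
      intro m
      rw [Polynomial.eval_eq_sum, Polynomial.sum, Finset.mul_sum]
      exact Finset.sum_congr rfl fun n _ => by ring
    rw [Finset.sum_congr rfl fun m _ => h4 m, Finset.sum_comm]
    refine Finset.sum_eq_zero fun n _ => ?_
    rw [← Finset.mul_sum, h1, mul_zero]
  have h5 := h3 (∏ m ∈ Finset.univ.erase l, (Polynomial.X - Polynomial.C (c m)))
  rw [Finset.sum_eq_single l] at h5
  · rcases mul_eq_zero.1 h5 with h6 | h6
    · simp only [a, if_pos hl] at h6
      exact h.ne _ h6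
    · rw [Polynomial.eval_prod, Finset.prod_eq_zero_iff] at h6
      obtain ⟨m, hm, hm0⟩ := h6
      rw [Polynomial.eval_sub, Polynomial.eval_X, Polynomial.eval_C, sub_eq_zero] at hm0
      exact (Finset.mem_erase.1 hm).1 (h.mono.injective hm0).symm
  · intro m _ hm
    rw [Polynomial.eval_prod, Finset.prod_eq_zero (Finset.mem_erase.2 ⟨hm, Finset.mem_univ m⟩),
      mul_zero]
    simp
  · simp

/-- sign -/
def sg (b : Bool) : ℝ := if b then 1 else -1

/-- The pieces. -/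
def piece (P : ι → Set ℝ) (E : ι → ℕ → Derivation ℚ ℝ ℝ) : Option (ι × ℕ × Bool) → Set ℝ
  | none => {y | 0 < y ∧ ∀ D : Derivation ℚ ℝ ℝ, D y = 0}
  | some (i, n, b) => {y | 0 < y ∧ Low P i y ∧ (∀ m < n, E i m y = 0) ∧ 0 < sg b * E i n y}

theorem piece_pos {E : ι → ℕ → Derivation ℚ ℝ ℝ} {o : Option (ι × ℕ × Bool)} {y : ℝ}
    (h : y ∈ piece P E o) : 0 < y := by
  rcases o with _ | ⟨i, n, b⟩
  · exact h.1
  · exact h.1

theorem piece_add {E : ι → ℕ → Derivation ℚ ℝ ℝ} {o : Option (ι × ℕ × Bool)} {y z : ℝ}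
    (hy : y ∈ piece P E o) (hz : z ∈ piece P E o) : y + z ∈ piece P E o := by
  rcases o with _ | ⟨i, n, b⟩
  · exact ⟨add_pos hy.1 hz.1, fun D => by rw [map_add, hy.2 D, hz.2 D, add_zero]⟩
  · refine ⟨add_pos hy.1 hz.1, hy.2.1.add hz.2.1, fun m hm => ?_, ?_⟩
    · rw [map_add, hy.2.2.1 m hm, hz.2.2.1 m hm, add_zero]
    · rw [map_add, mul_add]
      exact add_pos hy.2.2.2 hz.2.2.2

theorem piece_mul {E : ι → ℕ → Derivation ℚ ℝ ℝ} {o : Option (ι × ℕ × Bool)} {y z : ℝ}
    (hy : y ∈ piece P E o) (hz : z ∈ piece P E o) : y * z ∈ piece P E o := by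
  rcases o with _ | ⟨i, n, b⟩
  · exact ⟨mul_pos hy.1 hz.1, fun D => by
      rw [Derivation.leibniz, hy.2 D, hz.2 D, smul_zero, smul_zero, add_zero]⟩
  · refine ⟨mul_pos hy.1 hz.1, hy.2.1.mul hz.2.1, fun m hm => ?_, ?_⟩
    · rw [Derivation.leibniz, hy.2.2.1 m hm, hz.2.2.1 m hm, smul_zero, smul_zero, add_zero]
    · rw [Derivation.leibniz]
      have h1 : sg b * (y • (E i n) z + z • (E i n) y) =
          y * (sg b * E i n z) + z * (sg b * E i n y) := by
        simp only [smul_eq_mul]; ring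
      rw [h1]
      exact add_pos (mul_pos hy.1 hz.2.2.2) (mul_pos hz.1 hy.2.2.2)

theorem nf_exists (hT : IsTranscendenceBasis ℚ ((↑) : (⋃ i, P i : Set ℝ) → ℝ)) (y : ℝ) :
    ∃ k c q, NF (⋃ i, P i) y k c q := by
  obtain ⟨k, c, q, h1, h2, h3, h4⟩ := exists_normal hT y
  exact ⟨k, c, q, h1, h2, h3, h4⟩

/-- The pieces cover the positive reals. -/
theorem piece_cover (hT : IsTranscendenceBasis ℚ ((↑) : (⋃ i, P i : Set ℝ) → ℝ))
    {E : ι → ℕ → Derivation ℚ ℝ ℝ} (hE : IsTest P E) {y : ℝ} (hy : 0 < y) :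
    ∃ o, y ∈ piece P E o := by
  classical
  obtain ⟨k, c, q, h⟩ := nf_exists hT y
  rcases Nat.eq_zero_or_pos k with rfl | hk
  · refine ⟨none, hy, fun D => ?_⟩
    rw [h.der_eq D]
    simp
  · have hidx : ∀ l, ∃ i, c l ∈ P i := fun l => Set.mem_iUnion.1 (h.mem l)
    choose idx hidx using hidx
    have hne : (Finset.univ : Finset (Fin k)).Nonempty := ⟨⟨0, hk⟩, Finset.mem_univ _⟩
    obtain ⟨l, _, hl⟩ := Finset.exists_max_image Finset.univ idx hne
    have hlow : Low P (idx l) y := h.low (fun m => by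
      simp only [upTo, Set.mem_iUnion]
      exact ⟨idx m, hl m (Finset.mem_univ m), hidx m⟩)
    have hn := h.exists_test_ne hE (hidx l)
    let n := Nat.find hn
    have hn1 : E (idx l) n y ≠ 0 := Nat.find_spec hn
    have hn2 : ∀ m < n, E (idx l) m y = 0 := fun m hm => by
      by_contra h0
      exact Nat.find_min hn hm h0
    rcases lt_or_gt_of_ne hn1 with h1 | h1
    · refine ⟨some (idx l, n, false), hy, hlow, hn2, ?_⟩
      simp only [sg]
      simpa using h1
    · refine ⟨some (idx l, n, true), hy, hlow, hn2, ?_⟩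
      simp only [sg]
      simpa using h1

theorem low_test_eq_zero
    {E : ι → ℕ → Derivation ℚ ℝ ℝ} (hE : IsTest P E) {y : ℝ} {i j : ι} (hij : i < j)
    (hy : Low P i y) (n : ℕ) : E j n y = 0 := by
  apply hy
  intro t ht
  simp only [upTo, Set.mem_iUnion] at ht
  obtain ⟨k, hk, hkt⟩ := ht
  exact (hE j n).2 k (fun h2 => absurd hij (not_lt.2 (h2 ▸ hk))) t hkt

theorem piece_disjoint
    {E : ι → ℕ → Derivation ℚ ℝ ℝ} (hE : IsTest P E) {y : ℝ} {o o' : Option (ι × ℕ × Bool)}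
    (h : y ∈ piece P E o) (h' : y ∈ piece P E o') : o = o' := by
  rcases o with _ | ⟨i, n, b⟩ <;> rcases o' with _ | ⟨i', n', b'⟩
  · rfl
  · have := h'.2.2.2
    rw [h.2, mul_zero] at this
    exact absurd this (lt_irrefl _)
  · have := h.2.2.2
    rw [h'.2, mul_zero] at this
    exact absurd this (lt_irrefl _)
  · have hi : i = i' := by
      rcases lt_trichotomy i i' with h1 | h1 | h1
      · have := h'.2.2.2
        rw [low_test_eq_zero hE h1 h.2.1, mul_zero] at this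
        exact absurd this (lt_irrefl _)
      · exact h1
      · have := h.2.2.2
        rw [low_test_eq_zero hE h1 h'.2.1, mul_zero] at this
        exact absurd this (lt_irrefl _)
    subst hi
    have hn : n = n' := by
      rcases lt_trichotomy n n' with h1 | h1 | h1
      · have := h.2.2.2
        rw [h'.2.2.1 n h1, mul_zero] at this
        exact absurd this (lt_irrefl _)
      · exact h1
      · have := h'.2.2.2
        rw [h.2.2.1 n' h1, mul_zero] at this
        exact absurd this (lt_irrefl _)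
    subst hn
    have h1 := h.2.2.2
    have h2 := h'.2.2.2
    cases b <;> cases b'
    · rfl
    · simp only [sg] at h1 h2
      simp at h1 h2
      linarith
    · simp only [sg] at h1 h2
      simp at h1 h2
      linarith
    · rfl

end Pool.Agent.R567.SP
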