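import Mathlib
import Pool.Agent.R567.SP.Piece

set_option autoImplicit false
set_option linter.unusedSectionVars false

/-! # The pieces are Borel -/

namespace Pool.Agent.R567.SP

open MvPolynomial Set

variable {ι : Type} [LinearOrder ι] {P : ι → Set ℝ}

/-- evaluation of a polynomial at a pair -/
noncomputable def ev {k : ℕ} (q : MvPolynomial (Fin (k + 1)) ℚ) (p : ℝ × (Fin k → ℝ)) : ℝ :=
  aeval (Fin.cons p.1 p.2 : Fin (k + 1) → ℝ) q

theorem continuous_ev {k : ℕ} (q : MvPolynomial (Fin (k + 1)) ℚ) : Continuous (ev q) := by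
  have h1 : ev q = fun p : ℝ × (Fin k → ℝ) =>
      MvPolynomial.eval (Fin.cons p.1 p.2 : Fin (k + 1) → ℝ) (MvPolynomial.map (algebraMap ℚ ℝ) q) := by
    funext p
    rw [ev, MvPolynomial.aeval_def, MvPolynomial.eval_map]
  rw [h1]
  refine (MvPolynomial.continuous_eval _).comp ?_
  refine continuous_pi fun i => ?_
  refine Fin.cases ?_ (fun i => ?_) i
  · simpa using continuous_fst
  · simp only [Fin.cons_succ]
    exact (continuous_apply i).comp continuous_snd

theorem measurable_ev {k : ℕ} (q : MvPolynomial (Fin (k + 1)) ℚ) : Measurable (ev q) :=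
  (continuous_ev q).measurable

/-- the value of the test derivation computed from a normal form -/
noncomputable def tv (P : ι → Set ℝ) (i : ι) (n : ℕ) {k : ℕ} (q : MvPolynomial (Fin (k + 1)) ℚ)
    (p : ℝ × (Fin k → ℝ)) : ℝ :=
  -(∑ l : Fin k, ev (pderiv l.succ q) p * (P i).indicator (fun t => t ^ n) (p.2 l)) /
    ev (pderiv 0 q) p

theorem measurable_tv (hm : ∀ i, MeasurableSet (P i)) (i : ι) (n : ℕ) {k : ℕ}
    (q : MvPolynomial (Fin (k + 1)) ℚ) : Measurable (tv P i n q) := by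
  unfold tv
  refine Measurable.div (Measurable.neg ?_) (measurable_ev _)
  refine Finset.measurable_sum _ fun l _ => ?_
  refine (measurable_ev _).mul ?_
  exact ((measurable_id.pow_const n).indicator (hm i)).comp ((measurable_pi_apply l).comp measurable_snd)

theorem tv_eq {E : ι → ℕ → Derivation ℚ ℝ ℝ} (hE : IsTest P E)
    {y : ℝ} {k : ℕ} {c : Fin k → ℝ} {q : MvPolynomial (Fin (k + 1)) ℚ}
    (h : NF (⋃ i, P i) y k c q) (i : ι) (n : ℕ) : tv P i n q (y, c) = E i n y := by
  have h1 : ∀ l : Fin k, (P i).indicator (fun t => t ^ n) (c l) = E i n (c l) := by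
    intro l
    by_cases hl : c l ∈ P i
    · rw [Set.indicator_of_mem hl, (hE i n).1 _ hl]
    · rw [Set.indicator_of_notMem hl]
      obtain ⟨j, hj⟩ := Set.mem_iUnion.1 (h.mem l)
      exact ((hE i n).2 j (fun h2 => hl (h2 ▸ hj)) _ hj).symm
  have h2 : tv P i n q (y, c) = -(∑ l : Fin k, ev (pderiv l.succ q) (y, c) * E i n (c l)) /
      ev (pderiv 0 q) (y, c) := by
    unfold tv
    rw [Finset.sum_congr rfl fun l _ => by rw [h1 l]]
  rw [h2, h.der_eq (E i n)]
  rfl

/-- The Borel set of parameters. -/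
def bset (P : ι → Set ℝ) (i : ι) (n : ℕ) (b : Bool) (k : ℕ) (q : MvPolynomial (Fin (k + 1)) ℚ) :
    Set (ℝ × (Fin k → ℝ)) :=
  {p | (∀ l m, l < m → p.2 l < p.2 m) ∧ (∀ l, p.2 l ∈ upTo P i) ∧ ev q p = 0 ∧
    (∀ j, ev (pderiv j q) p ≠ 0) ∧ 0 < p.1 ∧ (∀ m < n, tv P i m q p = 0) ∧
    0 < sg b * tv P i n q p}

theorem measurableSet_upTo (hc : ∀ i : ι, (Set.Iic i).Countable) (hm : ∀ i, MeasurableSet (P i))
    (i : ι) : MeasurableSet (upTo P i) :=
  MeasurableSet.biUnion (hc i) fun j _ => hm j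

theorem measurableSet_bset (hc : ∀ i : ι, (Set.Iic i).Countable) (hm : ∀ i, MeasurableSet (P i))
    (i : ι) (n : ℕ) (b : Bool) (k : ℕ) (q : MvPolynomial (Fin (k + 1)) ℚ) :
    MeasurableSet (bset P i n b k q) := by
  have hcoord : ∀ l : Fin k, Measurable fun p : ℝ × (Fin k → ℝ) => p.2 l := fun l =>
    (measurable_pi_apply l).comp measurable_snd
  have h1 : MeasurableSet {p : ℝ × (Fin k → ℝ) | ∀ l m, l < m → p.2 l < p.2 m} := by
    simp only [Set.ofPred_forall]
    refine MeasurableSet.iInter fun l => MeasurableSet.iInter fun m => MeasurableSet.iInter fun _ => ?_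
    exact measurableSet_lt (hcoord l) (hcoord m)
  have h2 : MeasurableSet {p : ℝ × (Fin k → ℝ) | ∀ l, p.2 l ∈ upTo P i} := by
    simp only [Set.ofPred_forall]
    exact MeasurableSet.iInter fun l => (hcoord l) (measurableSet_upTo hc hm i)
  have h3 : MeasurableSet {p : ℝ × (Fin k → ℝ) | ev q p = 0} :=
    measurable_ev q (measurableSet_singleton 0)
  have h4 : MeasurableSet {p : ℝ × (Fin k → ℝ) | ∀ j, ev (pderiv j q) p ≠ 0} := by
    simp only [Set.ofPred_forall]
    exact MeasurableSet.iInter fun j => (measurable_ev (pderiv j q) (measurableSet_singleton 0)).compl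
  have h5 : MeasurableSet {p : ℝ × (Fin k → ℝ) | 0 < p.1} :=
    measurableSet_lt measurable_const measurable_fst
  have h6 : MeasurableSet {p : ℝ × (Fin k → ℝ) | ∀ m < n, tv P i m q p = 0} := by
    simp only [Set.ofPred_forall]
    refine MeasurableSet.iInter fun m => MeasurableSet.iInter fun _ => ?_
    exact measurable_tv hm i m q (measurableSet_singleton 0)
  have h7 : MeasurableSet {p : ℝ × (Fin k → ℝ) | 0 < sg b * tv P i n q p} :=
    measurableSet_lt measurable_const ((measurable_tv hm i n q).const_mul _)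
  exact h1.inter (h2.inter (h3.inter (h4.inter (h5.inter (h6.inter h7)))))

theorem nf_of_bset {i : ι} {n : ℕ} {b : Bool} {k : ℕ} {q : MvPolynomial (Fin (k + 1)) ℚ}
    {p : ℝ × (Fin k → ℝ)} (h : p ∈ bset P i n b k q) : NF (⋃ i, P i) p.1 k p.2 q where
  mono := fun l m hlm => h.1 l m hlm
  mem := fun l => by
    have := h.2.1 l
    simp only [upTo, Set.mem_iUnion] at this ⊢
    obtain ⟨j, _, hj⟩ := this
    exact ⟨j, hj⟩
  zero := h.2.2.1
  ne := h.2.2.2.1

theorem piece_some_eq (hT : IsTranscendenceBasis ℚ ((↑) : (⋃ i, P i : Set ℝ) → ℝ))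
    {E : ι → ℕ → Derivation ℚ ℝ ℝ} (hE : IsTest P E) (i : ι) (n : ℕ) (b : Bool) :
    piece P E (some (i, n, b)) =
      ⋃ k : ℕ, ⋃ q : MvPolynomial (Fin (k + 1)) ℚ, Prod.fst '' bset P i n b k q := by
  ext y
  simp only [Set.mem_iUnion, Set.mem_image]
  constructor
  · rintro ⟨hy, hlow, hz, hpos⟩
    obtain ⟨k, c, q, h⟩ := nf_exists hT y
    refine ⟨k, q, (y, c), ⟨fun l m hlm => h.mono hlm, h.mem_upTo hT hlow, h.zero, h.ne, hy, ?_, ?_⟩, rfl⟩
    · intro m hm
      rw [tv_eq hE h, hz m hm]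
    · rw [tv_eq hE h]
      exact hpos
  · rintro ⟨k, q, p, hp, rfl⟩
    have h := nf_of_bset hp
    have htv : ∀ m, tv P i m q p = E i m p.1 := fun m => tv_eq hE h i m
    refine ⟨hp.2.2.2.2.1, h.low hp.2.1, fun m hm => ?_, ?_⟩
    · rw [← htv]
      exact hp.2.2.2.2.2.1 m hm
    · rw [← htv]
      exact hp.2.2.2.2.2.2

theorem measurableSet_piece (hc : ∀ i : ι, (Set.Iic i).Countable)
    (hm : ∀ i, MeasurableSet (P i))
    (hT : IsTranscendenceBasis ℚ ((↑) : (⋃ i, P i : Set ℝ) → ℝ))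
    {E : ι → ℕ → Derivation ℚ ℝ ℝ} (hE : IsTest P E) (o : Option (ι × ℕ × Bool)) :
    MeasurableSet (piece P E o) := by
  rcases o with _ | ⟨i, n, b⟩
  · apply Set.Countable.measurableSet
    refine (Algebraic.countable ℚ ℝ).mono ?_
    intro y hy
    by_contra hn
    have h1 : AlgebraicIndependent ℚ (fun _ : Unit => y) :=
      algebraicIndependent_unique_type_iff.2 hn
    obtain ⟨D, hD⟩ := Pool.Agent.H135R2.VS.exists_der h1 (fun _ => 1)
    have h2 := hD ()
    rw [hy.2 D] at h2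
    exact zero_ne_one h2
  · rw [piece_some_eq hT hE]
    have hcount : ∀ k : ℕ, Countable (MvPolynomial (Fin (k + 1)) ℚ) := fun k =>
      Cardinal.mk_le_aleph0_iff.1 (MvPolynomial.cardinalMk_le_max.trans (by simp))
    refine MeasurableSet.iUnion fun k => MeasurableSet.iUnion fun q => ?_
    refine (measurableSet_bset hc hm i n b k q).image_of_continuousOn_injOn
      continuous_fst.continuousOn ?_
    intro p hp p' hp' heq
    have h := nf_of_bset hp
    have h' := nf_of_bset hp'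
    rw [← heq] at h'
    exact Prod.ext heq (h.eq_of hT h')

end Pool.Agent.R567.SP
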